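import Pool.Agent.H30.Rk

set_option autoImplicit false
open MvPolynomial Pool.Agent.H30.RkDefs

namespace Pool.Agent.Results.MP_d05de0_co.Selector

theorem result : ∃ (p : ℕ) (S : Set (ZMod p)) (n : ℕ) (P : MvPolynomial (Fin n) (ZMod p)),
    p.Prime ∧ 3 ≤ p ∧ S.Nonempty ∧ 1 ≤ n ∧ P.totalDegree = 2 ∧
    (∃ a : ZMod p, ∀ x : Fin n → ZMod p, (∀ i, x i ∈ S) → eval x P ≠ a) ∧
    ∀ (c : ZMod p) (P0 : MvPolynomial (Fin n) (ZMod p)),
      P0.totalDegree ≤ (P - C c).totalDegree →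
      (∀ x : Fin n → ZMod p, (∀ i, x i ∈ S) → eval x P0 = 0) →
      ¬ RankLe 1 (p - 2) (P - C c - P0) := by
  refine ⟨3, {0, 1}, 3, Pool.Agent.H30.Rk.P, by norm_num, le_rfl, by simp, by norm_num,
    Pool.Agent.H30.Rk.deg_eq, ⟨2, ?_⟩, Pool.Agent.H30.Rk.main⟩
  intro x hx
  have h0 := hx 0
  have h1 := hx 1
  have h2 := hx 2
  simp only [Set.mem_insert_iff, Set.mem_singleton_iff] at h0 h1 h2
  simp only [Pool.Agent.H30.Rk.P, map_add, map_mul, eval_X, map_sub, map_one]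
  rcases h0 with h0 | h0 <;> rcases h1 with h1 | h1 <;> rcases h2 with h2 | h2 <;>
    rw [h0, h1, h2] <;> decide

end Pool.Agent.Results.MP_d05de0_co.Selector
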